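import Pool.Agent.D0H81.YN.Stm
import Pool.Agent.Q73.AD.TA2
import Pool.Agent.Q73.AD.TA4

/-!
# DV: the divergence theorem for `arctan (u / ε) ∇u / √P`
-/

set_option autoImplicit false
open MeasureTheory Filter Topology Complex Metric
open scoped ContDiff ENNReal

namespace Pool.Agent.D0H79.YN

open Pool.Agent.Q73.NL (dx dy lap int_der)
open Pool.Agent.Q73.AD (ta2_cd ta2_cont ta2_int cda_d fd_mul)
open Pool.Agent.D0H81.YN

noncomputable section

/-- Cauchy-Schwarz -/
lemma dv_cs (a b c d : ℝ) : |a * c + b * d| ≤ Real.sqrt (a ^ 2 + b ^ 2) * Real.sqrt (c ^ 2 + d ^ 2) := by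
  rw [← Real.sqrt_mul (by positivity), ← Real.sqrt_sq_eq_abs]
  apply Real.sqrt_le_sqrt
  nlinarith [sq_nonneg (a * d - b * c)]

lemma dv_Ppos (u : ℂ → ℝ) {τ : ℝ} (hτ : 0 < τ) (z : ℂ) : 0 < P u τ z := by
  unfold P
  positivity

lemma dv_Pcd {q u : ℂ → ℝ} (h : SolB q u) (τ : ℝ) {z : ℂ} (hz : z ∈ closedBall (0 : ℂ) 16) :
    ContDiffAt ℝ ∞ (P u τ) z := by
  have h1 : ContDiffAt ℝ ∞ (dx u) z := cda_d 1 (h.sm z hz)
  have h2 : ContDiffAt ℝ ∞ (dy u) z := cda_d I (h.sm z hz)
  exact ((((h.sm z hz).pow 2).add (h1.pow 2)).add (h2.pow 2)).add contDiffAt_const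

lemma dv_vcd {q u : ℂ → ℝ} (h : SolB q u) {τ : ℝ} (hτ : 0 < τ) {z : ℂ}
    (hz : z ∈ closedBall (0 : ℂ) 16) : ContDiffAt ℝ ∞ (vv u τ) z := by
  have h1 := (dv_Pcd h τ hz).log (dv_Ppos u hτ z).ne'
  exact h1.div_const 2

lemma dv_exp (u : ℂ → ℝ) {τ : ℝ} (hτ : 0 < τ) (z : ℂ) :
    Real.exp (-vv u τ z) = (Real.sqrt (P u τ z))⁻¹ := by
  have h := dv_Ppos u hτ z
  rw [Real.exp_neg]
  congr 1
  unfold vv
  rw [Real.sqrt_eq_rpow, Real.rpow_def_of_pos h]
  congr 1
  ring

/-- the derivative of the arctangent factor -/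
lemma dv_atan {u : ℂ → ℝ} {ε : ℝ} (hε : 0 < ε) {z : ℂ} (hu : DifferentiableAt ℝ u z) (v : ℂ) :
    DifferentiableAt ℝ (fun z => Real.arctan (u z / ε)) z ∧
    fderiv ℝ (fun z => Real.arctan (u z / ε)) z v = ε / (ε ^ 2 + u z ^ 2) * fderiv ℝ u z v := by
  have h1 : HasFDerivAt (fun z => u z / ε) (ε⁻¹ • fderiv ℝ u z) z := by
    have := hu.hasFDerivAt.const_mul ε⁻¹
    refine this.congr_of_eventuallyEq (Eventually.of_forall fun w => ?_)
    simp only
    rw [div_eq_inv_mul]
  have h2 := h1.arctan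
  refine ⟨h2.differentiableAt, ?_⟩
  rw [h2.fderiv]
  simp only [_root_.smul_apply, smul_eq_mul]
  have h3 : (0:ℝ) < ε ^ 2 + u z ^ 2 := by positivity
  have h4 : (0:ℝ) < 1 + (u z / ε) ^ 2 := by positivity
  field_simp

theorem t_DV : S_DV := by
  let χ : ContDiffBump (0 : ℂ) := ⟨3 / 2, 7 / 4, by norm_num, by norm_num⟩
  have hχ : ContDiff ℝ ∞ (χ : ℂ → ℝ) := χ.contDiff
  have hχc : HasCompactSupport (χ : ℂ → ℝ) := χ.hasCompactSupport
  have hχs : tsupport (χ : ℂ → ℝ) ⊆ ball (0 : ℂ) 2 := by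
    rw [χ.tsupport_eq]
    exact closedBall_subset_ball (by norm_num)
  have hχ0 : ∀ z, 0 ≤ χ z := fun z => χ.nonneg
  have hχ1 : ∀ z, χ z ≤ 1 := fun z => χ.le_one
  -- the constant of the cutoff function
  have hgi : Integrable (gn (χ : ℂ → ℝ)) := by
    have hfd : Continuous (fderiv ℝ (χ : ℂ → ℝ)) := hχ.continuous_fderiv (by simp)
    have hc : Continuous (gn (χ : ℂ → ℝ)) :=
      (((hfd.clm_apply continuous_const).pow 2).add ((hfd.clm_apply continuous_const).pow 2)).sqrt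
    refine hc.integrable_of_hasCompactSupport ?_
    refine (hχc.fderiv (𝕜 := ℝ)).mono fun z hz => ?_
    rw [Function.mem_support] at hz ⊢
    intro h0
    apply hz
    simp [gn, dx, dy, h0]
  have hχi : Integrable (χ : ℂ → ℝ) := hχ.continuous.integrable_of_hasCompactSupport hχc
  set Cχ : ℝ := ∫ z, (gn (χ : ℂ → ℝ) z + χ z) with hCχ
  have hCχ0 : 0 ≤ Cχ := integral_nonneg fun z => add_nonneg (Real.sqrt_nonneg _) (hχ0 z)
  have hπ := Real.pi_gt_three
  refine ⟨Real.pi / 2 * (1 + Cχ), by nlinarith, fun q u ε τ hε hτ hsol => ?_⟩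
  have hB : ∀ z ∈ ball (0 : ℂ) 2, z ∈ closedBall (0 : ℂ) 16 := fun z hz => by
    rw [mem_ball_zero_iff] at hz
    rw [mem_closedBall_zero_iff]
    linarith
  -- the factors
  set W : ℂ → ℝ := fun z => Real.arctan (u z / ε) * Real.exp (-vv u τ z) with hW
  have hWcd : ∀ z ∈ ball (0 : ℂ) 2, ContDiffAt ℝ ∞ W z := fun z hz => by
    have h1 : ContDiffAt ℝ ∞ (fun z => Real.arctan (u z / ε)) z :=
      Real.contDiff_arctan.contDiffAt.comp z ((hsol.sm z (hB z hz)).div_const ε)
    exact h1.mul ((dv_vcd hsol hτ (hB z hz)).neg.exp)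
  have hWd : ∀ z ∈ ball (0 : ℂ) 2, ∀ v : ℂ, fderiv ℝ W z v =
      Real.exp (-vv u τ z) * (ε / (ε ^ 2 + u z ^ 2) * fderiv ℝ u z v) -
      W z * fderiv ℝ (vv u τ) z v := by
    intro z hz v
    have hu : DifferentiableAt ℝ u z := (hsol.sm z (hB z hz)).differentiableAt (by simp)
    have hv : DifferentiableAt ℝ (vv u τ) z :=
      (dv_vcd hsol hτ (hB z hz)).differentiableAt (by simp)
    obtain ⟨h1, h2⟩ := dv_atan hε hu v
    have h3 : HasFDerivAt (fun z => Real.exp (-vv u τ z))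
        (Real.exp (-vv u τ z) • -fderiv ℝ (vv u τ) z) z := hv.hasFDerivAt.neg.exp
    have h4 := fd_mul v h1 h3.differentiableAt
    rw [h2, h3.fderiv] at h4
    rw [hW]
    simp only
    rw [h4]
    simp only [_root_.smul_apply, _root_.neg_apply, smul_eq_mul]
    ring
  -- the fields
  have hX : ∀ v : ℂ, ContDiff ℝ 1 (fun z => χ z * (W z * fderiv ℝ u z v)) := fun v => by
    have := ta2_cd (n := ∞) hχ hχs (g := fun z => W z * fderiv ℝ u z v)
      fun z hz => (hWcd z hz).mul (cda_d v (hsol.sm z (hB z hz)))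
    exact this.of_le (by simp)
  obtain ⟨i1, j1⟩ := int_der (hX 1) hχc.mul_right 1
  obtain ⟨i2, j2⟩ := int_der (hX I) hχc.mul_right I
  -- the integrand
  set A : ℂ → ℝ := fun z => ε / (ε ^ 2 + u z ^ 2) * (gn u z ^ 2 / Real.sqrt (P u τ z)) with hA
  have hA0 : ∀ z, 0 ≤ A z := fun z => by positivity
  have hucont : ∀ z ∈ closedBall (0 : ℂ) 16, ContinuousAt u z := fun z hz =>
    (hsol.sm z hz).continuousAt
  have hgcont : ∀ z ∈ closedBall (0 : ℂ) 16, ContinuousAt (gn u) z := fun z hz => by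
    have h1 : ContinuousAt (dx u) z := (cda_d 1 (hsol.sm z hz)).continuousAt
    have h2 : ContinuousAt (dy u) z := (cda_d I (hsol.sm z hz)).continuousAt
    exact ((h1.pow 2).add (h2.pow 2)).sqrt
  have hAcont : ∀ z ∈ ball (0 : ℂ) 2, ContinuousAt A z := fun z hz => by
    have h1 := hucont z (hB z hz)
    have h2 := hgcont z (hB z hz)
    have h3 : ContinuousAt (fun z => Real.sqrt (P u τ z)) z :=
      (dv_Pcd hsol τ (hB z hz)).continuousAt.sqrt
    have h4 : ε ^ 2 + u z ^ 2 ≠ 0 := by positivity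
    refine (continuousAt_const.div (continuousAt_const.add (h1.pow 2)) h4).mul
      ((h2.pow 2).div h3 ?_)
    exact (Real.sqrt_pos.2 (dv_Ppos u hτ z)).ne'
  have iA : Integrable fun z => χ z * A z := ta2_int hχ.continuous hχc hχs hAcont
  have hvcont : ∀ z ∈ closedBall (0 : ℂ) 16, ContinuousAt (gn (vv u τ)) z := fun z hz => by
    have h1 : ContinuousAt (dx (vv u τ)) z := (cda_d 1 (dv_vcd hsol hτ hz)).continuousAt
    have h2 : ContinuousAt (dy (vv u τ)) z := (cda_d I (dv_vcd hsol hτ hz)).continuousAt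
    exact ((h1.pow 2).add (h2.pow 2)).sqrt
  have iV : Integrable fun z => χ z * gn (vv u τ) z :=
    ta2_int hχ.continuous hχc hχs fun z hz => hvcont z (hB z hz)
  -- the pointwise inequality
  have hpt : ∀ z, χ z * A z ≤
      (fderiv ℝ (fun z => χ z * (W z * fderiv ℝ u z 1)) z 1 +
        fderiv ℝ (fun z => χ z * (W z * fderiv ℝ u z I)) z I) +
      Real.pi / 2 * ((gn (χ : ℂ → ℝ) z + χ z) + χ z * gn (vv u τ) z) := by
    intro z
    by_cases hz : z ∈ ball (0 : ℂ) 2
    · have hu := hsol.sm z (hB z hz)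
      have hderiv : ∀ v : ℂ, fderiv ℝ (fun z => χ z * (W z * fderiv ℝ u z v)) z v =
          fderiv ℝ (χ : ℂ → ℝ) z v * (W z * fderiv ℝ u z v) +
          χ z * (fderiv ℝ W z v * fderiv ℝ u z v +
            W z * fderiv ℝ (fun w => fderiv ℝ u w v) z v) := by
        intro v
        have h1 : DifferentiableAt ℝ W z := (hWcd z hz).differentiableAt (by simp)
        have h2 : DifferentiableAt ℝ (fun w => fderiv ℝ u w v) z :=
          (cda_d v hu).differentiableAt (by simp)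
        have h3 : DifferentiableAt ℝ (fun w => W w * fderiv ℝ u w v) z := h1.mul h2
        rw [fd_mul v (hχ.differentiable (by simp) z) h3, fd_mul v h1 h2]
      rw [hderiv 1, hderiv I, hWd z hz, hWd z hz]
      set E : ℝ := Real.exp (-vv u τ z) with hE
      set a : ℝ := Real.arctan (u z / ε) with ha
      have hWz : W z = a * E := rfl
      set c : ℝ := ε / (ε ^ 2 + u z ^ 2) with hc
      have hE0 : 0 < E := Real.exp_pos _
      have hEs : E = (Real.sqrt (P u τ z))⁻¹ := dv_exp u hτ z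
      have hAz : A z = c * (gn u z ^ 2 * E) := by
        rw [hEs]
        rfl
      have ha1 : |a| ≤ Real.pi / 2 := by
        rw [abs_le]
        exact ⟨(Real.neg_pi_div_two_lt_arctan _).le, (Real.arctan_lt_pi_div_two _).le⟩
      have hgn2 : gn u z ^ 2 = fderiv ℝ u z 1 ^ 2 + fderiv ℝ u z I ^ 2 :=
        Real.sq_sqrt (by positivity)
      have hlap : fderiv ℝ (fun w => fderiv ℝ u w 1) z 1 + fderiv ℝ (fun w => fderiv ℝ u w I) z I
          = -(q z * u z) := by
        have h1 := hsol.eq z (hB z hz)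
        have h2 : lap u z = fderiv ℝ (fun w => fderiv ℝ u w 1) z 1 +
          fderiv ℝ (fun w => fderiv ℝ u w I) z I := rfl
        linarith
      have hsP : 0 < Real.sqrt (P u τ z) := Real.sqrt_pos.2 (dv_Ppos u hτ z)
      have hgE : gn u z * E ≤ 1 := by
        rw [hEs, ← div_eq_mul_inv, div_le_one hsP]
        apply Real.sqrt_le_sqrt
        unfold P
        nlinarith [sq_nonneg (u z)]
      have huE : |u z| * E ≤ 1 := by
        rw [hEs, ← div_eq_mul_inv, div_le_one hsP, ← Real.sqrt_sq_eq_abs]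
        apply Real.sqrt_le_sqrt
        unfold P
        nlinarith [sq_nonneg (dx u z), sq_nonneg (dy u z)]
      have hg0 : 0 ≤ gn u z := Real.sqrt_nonneg _
      -- the three errors
      have e1 : |a * E * (fderiv ℝ (χ : ℂ → ℝ) z 1 * fderiv ℝ u z 1 +
          fderiv ℝ (χ : ℂ → ℝ) z I * fderiv ℝ u z I)| ≤ Real.pi / 2 * gn (χ : ℂ → ℝ) z := by
        have h1 := dv_cs (fderiv ℝ (χ : ℂ → ℝ) z 1) (fderiv ℝ (χ : ℂ → ℝ) z I)
          (fderiv ℝ u z 1) (fderiv ℝ u z I)
        rw [abs_mul, abs_mul, abs_of_pos hE0]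
        have h2 : 0 ≤ gn (χ : ℂ → ℝ) z := Real.sqrt_nonneg _
        calc |a| * E * _ ≤ |a| * E * (gn (χ : ℂ → ℝ) z * gn u z) :=
              mul_le_mul_of_nonneg_left h1 (by positivity)
          _ = |a| * gn (χ : ℂ → ℝ) z * (gn u z * E) := by ring
          _ ≤ |a| * gn (χ : ℂ → ℝ) z * 1 := mul_le_mul_of_nonneg_left hgE (by positivity)
          _ ≤ Real.pi / 2 * gn (χ : ℂ → ℝ) z := by
            rw [mul_one]
            exact mul_le_mul_of_nonneg_right ha1 h2
      have e2 : |a * E * (fderiv ℝ (vv u τ) z 1 * fderiv ℝ u z 1 +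
          fderiv ℝ (vv u τ) z I * fderiv ℝ u z I)| ≤ Real.pi / 2 * gn (vv u τ) z := by
        have h1 := dv_cs (fderiv ℝ (vv u τ) z 1) (fderiv ℝ (vv u τ) z I)
          (fderiv ℝ u z 1) (fderiv ℝ u z I)
        rw [abs_mul, abs_mul, abs_of_pos hE0]
        have h2 : 0 ≤ gn (vv u τ) z := Real.sqrt_nonneg _
        calc |a| * E * _ ≤ |a| * E * (gn (vv u τ) z * gn u z) :=
              mul_le_mul_of_nonneg_left h1 (by positivity)
          _ = |a| * gn (vv u τ) z * (gn u z * E) := by ring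
          _ ≤ |a| * gn (vv u τ) z * 1 := mul_le_mul_of_nonneg_left hgE (by positivity)
          _ ≤ Real.pi / 2 * gn (vv u τ) z := by
            rw [mul_one]
            exact mul_le_mul_of_nonneg_right ha1 h2
      have e3 : |a * E * (q z * u z)| ≤ Real.pi / 2 := by
        have hq0 := hsol.q0 z (hB z hz)
        have hq1 := hsol.q1 z (hB z hz)
        rw [abs_mul, abs_mul, abs_mul, abs_of_pos hE0, abs_of_nonneg hq0]
        calc |a| * E * (q z * |u z|) = |a| * q z * (|u z| * E) := by ring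
          _ ≤ |a| * q z * 1 := mul_le_mul_of_nonneg_left huE (by positivity)
          _ ≤ Real.pi / 2 * 1 := by
            rw [mul_one]
            exact mul_le_mul ha1 hq1 hq0 (by positivity)
          _ = Real.pi / 2 := mul_one _
      have e1' := (abs_le.1 e1).1
      have e2' := (abs_le.1 e2).2
      have e3' := (abs_le.1 e3).2
      rw [hAz, hgn2, hWz]
      have hlap' : fderiv ℝ (fun w => fderiv ℝ u w I) z I
          = -(q z * u z) - fderiv ℝ (fun w => fderiv ℝ u w 1) z 1 := by linarith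
      rw [hlap']
      have hkey : (fderiv ℝ (χ : ℂ → ℝ) z 1 * (a * E * fderiv ℝ u z 1) +
          χ z * ((E * (c * fderiv ℝ u z 1) - a * E * fderiv ℝ (vv u τ) z 1) * fderiv ℝ u z 1 +
            a * E * fderiv ℝ (fun w => fderiv ℝ u w 1) z 1) +
          (fderiv ℝ (χ : ℂ → ℝ) z I * (a * E * fderiv ℝ u z I) +
          χ z * ((E * (c * fderiv ℝ u z I) - a * E * fderiv ℝ (vv u τ) z I) * fderiv ℝ u z I +
            a * E * (-(q z * u z) - fderiv ℝ (fun w => fderiv ℝ u w 1) z 1))))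
          = χ z * (c * ((fderiv ℝ u z 1 ^ 2 + fderiv ℝ u z I ^ 2) * E)) +
            a * E * (fderiv ℝ (χ : ℂ → ℝ) z 1 * fderiv ℝ u z 1 +
              fderiv ℝ (χ : ℂ → ℝ) z I * fderiv ℝ u z I) -
            χ z * (a * E * (fderiv ℝ (vv u τ) z 1 * fderiv ℝ u z 1 +
              fderiv ℝ (vv u τ) z I * fderiv ℝ u z I)) -
            χ z * (a * E * (q z * u z)) := by ring
      rw [hkey]
      have m2 := mul_le_mul_of_nonneg_left e2' (hχ0 z)
      have m3 := mul_le_mul_of_nonneg_left e3' (hχ0 z)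
      linarith
    · have hz' : z ∉ tsupport (χ : ℂ → ℝ) := fun h => hz (hχs h)
      have h0 : (χ : ℂ → ℝ) z = 0 := image_eq_zero_of_notMem_tsupport hz'
      have h1 : ∀ g : ℂ → ℝ, fderiv ℝ (fun z => χ z * g z) z = 0 := by
        intro g
        have h2 : (fun z => χ z * g z) =ᶠ[𝓝 z] fun _ => 0 := by
          have h3 : (tsupport (χ : ℂ → ℝ))ᶜ ∈ 𝓝 z :=
            (isClosed_tsupport _).isOpen_compl.mem_nhds hz'
          filter_upwards [h3] with y hy
          rw [image_eq_zero_of_notMem_tsupport hy, zero_mul]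
        rw [h2.fderiv_eq]
        simp
      rw [h1, h1, h0]
      have h2 : 0 ≤ gn (χ : ℂ → ℝ) z := Real.sqrt_nonneg _
      simp only [_root_.zero_apply, zero_mul, add_zero, zero_add]
      positivity
  -- integration
  have iR : Integrable fun z => Real.pi / 2 * ((gn (χ : ℂ → ℝ) z + χ z) + χ z * gn (vv u τ) z) :=
    ((hgi.add hχi).add iV).const_mul _
  have i12 : Integrable fun z => fderiv ℝ (fun z => χ z * (W z * fderiv ℝ u z 1)) z 1 +
      fderiv ℝ (fun z => χ z * (W z * fderiv ℝ u z I)) z I := i1.add i2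
  have iχ : Integrable fun z => gn (χ : ℂ → ℝ) z + χ z := hgi.add hχi
  have hmono := integral_mono iA (i12.add iR) hpt
  have hI : ∫ z, ((fderiv ℝ (fun z => χ z * (W z * fderiv ℝ u z 1)) z 1 +
        fderiv ℝ (fun z => χ z * (W z * fderiv ℝ u z I)) z I) +
      Real.pi / 2 * ((gn (χ : ℂ → ℝ) z + χ z) + χ z * gn (vv u τ) z)) =
      Real.pi / 2 * (Cχ + ∫ z, χ z * gn (vv u τ) z) := by
    rw [integral_add i12 iR, integral_add i1 i2, j1, j2, integral_const_mul,
      integral_add iχ iV]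
    ring
  have hV : ∫ z, χ z * gn (vv u τ) z ≤ ∫ z in ball (0 : ℂ) 2, gn (vv u τ) z := by
    have iVB : IntegrableOn (gn (vv u τ)) (ball (0 : ℂ) 2) := by
      have h1 : ContinuousOn (gn (vv u τ)) (closedBall (0 : ℂ) 2) := fun z hz =>
        (hvcont z (closedBall_subset_closedBall (by norm_num) hz)).continuousWithinAt
      exact (h1.integrableOn_compact (isCompact_closedBall _ _)).mono_set ball_subset_closedBall
    have h1 : ∫ z, χ z * gn (vv u τ) z = ∫ z in ball (0 : ℂ) 2, χ z * gn (vv u τ) z := by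
      symm
      apply setIntegral_eq_integral_of_forall_compl_eq_zero
      intro z hz
      rw [image_eq_zero_of_notMem_tsupport (fun h => hz (hχs h)), zero_mul]
    rw [h1]
    apply integral_mono iV.integrableOn iVB
    intro z
    exact mul_le_of_le_one_left (Real.sqrt_nonneg _) (hχ1 z)
  have hL : ∫ z in ball (0 : ℂ) (3 / 2), A z ≤ ∫ z, χ z * A z := by
    have h1 : ∫ z in ball (0 : ℂ) (3 / 2), A z = ∫ z in ball (0 : ℂ) (3 / 2), χ z * A z := by
      apply setIntegral_congr_fun measurableSet_ball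
      intro z hz
      simp only
      rw [χ.one_of_mem_closedBall (ball_subset_closedBall hz), one_mul]
    rw [h1]
    exact setIntegral_le_integral iA (Eventually.of_forall fun z => mul_nonneg (hχ0 z) (hA0 z))
  have hmono' : ∫ z, χ z * A z ≤ Real.pi / 2 * (Cχ + ∫ z, χ z * gn (vv u τ) z) := by
    rw [← hI]
    exact hmono
  have hV0 : 0 ≤ ∫ z in ball (0 : ℂ) 2, gn (vv u τ) z := integral_nonneg fun z => Real.sqrt_nonneg _
  calc ∫ z in ball (0 : ℂ) (3 / 2), A z ≤ ∫ z, χ z * A z := hL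
    _ ≤ Real.pi / 2 * (Cχ + ∫ z, χ z * gn (vv u τ) z) := hmono'
    _ ≤ Real.pi / 2 * (Cχ + ∫ z in ball (0 : ℂ) 2, gn (vv u τ) z) :=
        mul_le_mul_of_nonneg_left (by linarith) (by positivity)
    _ ≤ Real.pi / 2 * (1 + Cχ) * (1 + ∫ z in ball (0 : ℂ) 2, gn (vv u τ) z) := by
        nlinarith [mul_nonneg hCχ0 hV0]

end

end Pool.Agent.D0H79.YN
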