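import Pool.Agent.D0H81.YN.Stm
import Pool.Agent.Q73.AD.YZ6

/-!
# SQ: the nodal length in a square, from SC and Z6
-/

set_option autoImplicit false
open MeasureTheory Filter Topology Complex Metric
open scoped ContDiff ENNReal

namespace Pool.Agent.D0H79.YN

open Pool.Agent.Q73.NL (dx dy lap)
open Pool.Agent.Q73.AD
open Pool.Agent.D0H81.YN

noncomputable section

/-- close centres have close indices -/
lemma sq_idx {n i j : ℕ} (hn : 0 < n) {s σ t c : ℝ} (hs : 0 < s) (hσn : σ * n ≤ 3 * s)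
    (h1 : |t - (c + s * (-1 + (2 * (i : ℝ) + 1) / n))| ≤ σ)
    (h2 : |t - (c + s * (-1 + (2 * (j : ℝ) + 1) / n))| ≤ σ) : i ≤ j + 3 := by
  have hn0 : (0 : ℝ) < n := by exact_mod_cast hn
  have h3 := (abs_le.1 h1).1
  have h4 := (abs_le.1 h2).2
  have h5 : s * ((2 * (i : ℝ) + 1) / n) - s * ((2 * (j : ℝ) + 1) / n) ≤ 2 * σ := by linarith
  have h6 : s * ((2 * (i : ℝ) + 1) / n) - s * ((2 * (j : ℝ) + 1) / n) = 2 * s * ((i : ℝ) - j) / n := by
    ring
  rw [h6, div_le_iff₀ hn0] at h5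
  have h7 : 2 * s * ((i : ℝ) - j) ≤ 2 * s * 3 := by nlinarith
  have h8 : (i : ℝ) - j ≤ 3 := le_of_mul_le_mul_left h7 (by positivity)
  have h9 : (i : ℝ) ≤ ((j + 3 : ℕ) : ℝ) := by
    push_cast
    linarith
  exact_mod_cast h9

theorem t_SQ (hSC : S_SC) (hZ : Z6) : S_SQ := by
  classical
  obtain ⟨C, hC, hSC⟩ := hSC
  obtain ⟨s₁, hs₁, hZ⟩ := hZ
  refine ⟨s₁, hs₁, fun s L G₀ hs hss _ hL hG => ?_⟩
  have hL0 : (0 : ℝ) < L := by linarith
  have hLs : 0 < Real.sqrt L := Real.sqrt_pos.2 hL0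
  have hLs1 : 1 ≤ Real.sqrt L := Real.one_le_sqrt.2 hL
  obtain ⟨Az, lz, hAz, hlz, hZ⟩ := hZ s L G₀ (1 / Real.sqrt L) (16 / Real.sqrt L) 16 hs hss hL hG
    (by positivity) (by positivity) (by norm_num)
  have hC0 : 0 < C := by linarith
  refine ⟨C * (9 * s ^ 2 * L + Az), max lz (1 / (L * s ^ 2)), by positivity, by positivity,
    fun lam p ρ φ hlam hloc hgr => ?_⟩
  have hlam0 : 0 < lam := hloc.lam_pos
  have hl1 : lz ≤ lam := (le_max_left _ _).trans hlam
  have hl2 : 1 / (L * s ^ 2) ≤ lam := (le_max_right _ _).trans hlam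
  have hls : 0 < Real.sqrt lam := Real.sqrt_pos.2 hlam0
  obtain ⟨σ, hσ⟩ : ∃ σ : ℝ, σ = 1 / Real.sqrt L / Real.sqrt lam := ⟨_, rfl⟩
  have hσ0 : 0 < σ := by rw [hσ]; positivity
  have hσ2 : σ ^ 2 = 1 / (L * lam) := by
    rw [hσ, div_pow, div_pow, Real.sq_sqrt hL0.le, Real.sq_sqrt hlam0.le]
    field_simp
  have hσs : σ ≤ s := by
    apply le_of_sq_le_sq _ hs.le
    rw [hσ2, div_le_iff₀ (by positivity)]
    rw [div_le_iff₀ (by positivity)] at hl2
    linarith
  have hσ16 : 16 / Real.sqrt L / Real.sqrt lam = 16 * σ := by rw [hσ]; ring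
  have hs1 := hloc.s_le
  -- the number of squares
  obtain ⟨n, hn⟩ : ∃ n : ℕ, n = ⌈2 * s / σ⌉₊ := ⟨_, rfl⟩
  have hn1 : 2 * s / σ ≤ n := by rw [hn]; exact Nat.le_ceil _
  have hn2 : (n : ℝ) ≤ 3 * s / σ := by
    have h1 : (n : ℝ) < 2 * s / σ + 1 := by
      rw [hn]
      exact Nat.ceil_lt_add_one (by positivity)
    have h2 : 1 ≤ s / σ := by
      rw [one_le_div hσ0]
      exact hσs
    have h3 : 3 * s / σ = 2 * s / σ + s / σ := by ring
    linarith
  have hn0 : (0 : ℝ) < n := lt_of_lt_of_le (by positivity) hn1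
  have hnpos : 0 < n := by exact_mod_cast hn0
  have hsn : 2 * (s / n) ≤ σ := by
    rw [div_le_iff₀ hσ0] at hn1
    rw [← mul_div_assoc, div_le_iff₀ hn0]
    linarith
  have hσn : σ * n ≤ 3 * s := by
    rw [le_div_iff₀ hσ0] at hn2
    linarith
  have hn3 : (n : ℝ) ^ 2 * σ ≤ 9 * s ^ 2 * L * Real.sqrt lam := by
    have h1 : (n : ℝ) ^ 2 ≤ (3 * s / σ) ^ 2 := pow_le_pow_left₀ hn0.le hn2 2
    have h2 : (3 * s / σ) ^ 2 = 9 * s ^ 2 * (L * lam) := by
      rw [div_pow, hσ2]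
      field_simp
      ring
    rw [h2] at h1
    have h3 : (n : ℝ) ^ 2 * σ ≤ 9 * s ^ 2 * (L * lam) * σ := mul_le_mul_of_nonneg_right h1 hσ0.le
    have h4 : lam * σ ≤ Real.sqrt lam := by
      rw [hσ, ← mul_div_assoc, div_le_iff₀ hls, Real.mul_self_sqrt hlam0.le, mul_one_div]
      exact div_le_self hlam0.le hLs1
    calc (n : ℝ) ^ 2 * σ ≤ 9 * s ^ 2 * (L * lam) * σ := h3
      _ = 9 * s ^ 2 * L * (lam * σ) := by ring
      _ ≤ 9 * s ^ 2 * L * Real.sqrt lam := mul_le_mul_of_nonneg_left h4 (by positivity)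
  have hlamσ : σ * lam ≤ Real.sqrt lam := by
    rw [hσ, div_mul_eq_mul_div, div_le_iff₀ hls, Real.mul_self_sqrt hlam0.le, div_mul_eq_mul_div,
      one_mul]
    exact div_le_self hlam0.le hLs1
  -- the centres
  set w : gd n → ℂ := fun a => p + s * ct n a with hw
  have hwre : ∀ a : gd n, (w a).re = p.re + s * (-1 + (2 * ((a : ℕ × ℕ).1 : ℝ) + 1) / n) := by
    intro a
    simp only [hw, ct, Complex.add_re, Complex.mul_re, Complex.ofReal_re, Complex.ofReal_im]
    ring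
  have hwim : ∀ a : gd n, (w a).im = p.im + s * (-1 + (2 * ((a : ℕ × ℕ).2 : ℝ) + 1) / n) := by
    intro a
    simp only [hw, ct, Complex.add_im, Complex.mul_im, Complex.ofReal_re, Complex.ofReal_im]
    ring
  have hws : ∀ a : gd n, |(w a - p).re| ≤ s ∧ |(w a - p).im| ≤ s := by
    intro a
    obtain ⟨h1, h2⟩ := ct_abs a.2
    have h3 : (0 : ℝ) < 1 / n := by positivity
    have e1 : (w a - p).re = s * (ct n a).re := by
      simp [hw]
    have e2 : (w a - p).im = s * (ct n a).im := by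
      simp [hw]
    rw [e1, e2, abs_mul, abs_mul, abs_of_pos hs]
    exact ⟨mul_le_of_le_one_right hs.le (by linarith), mul_le_of_le_one_right hs.le (by linarith)⟩
  have hsub : ∀ a : gd n, closedBall (w a) (16 * σ) ⊆ closedBall p (32 * s) := by
    intro a
    refine closedBall_subset_closedBall' ?_
    rw [dist_eq_norm]
    have h1 := Complex.norm_le_abs_re_add_abs_im (w a - p)
    obtain ⟨h2, h3⟩ := hws a
    linarith
  obtain ⟨B, hB⟩ := TZ6.loc_bd hloc
  -- the local theorem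
  have hloc1 : ∀ a : gd n, (μH[1] : Measure ℂ) {z | z ∈ closedBall (w a) σ ∧ φ z = 0} ≤
      ENNReal.ofReal (C * σ * (1 + Real.log (sn φ (closedBall (w a) (16 * σ)) /
        sn φ (closedBall (w a) σ)))) := by
    intro a
    refine hSC lam L σ (w a) ρ φ hlam0 hL hσ0 (hσs.trans hs1) ?_ ?_ ?_
    · rw [hσ2]
      apply le_of_eq
      field_simp
    · exact fun z hz => hloc.sol z (hsub a hz)
    · exact fun z r hr hz => hloc.pos z r hr (hz.trans (hsub a))
  have hlog0 : ∀ a : gd n, 0 ≤ Real.log (sn φ (closedBall (w a) (16 * σ)) /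
      sn φ (closedBall (w a) σ)) := by
    intro a
    have h1 : closedBall (w a) σ ⊆ closedBall (w a) (16 * σ) :=
      closedBall_subset_closedBall (by linarith)
    have h2 := hloc.pos (w a) σ hσ0 (h1.trans (hsub a))
    apply Real.log_nonneg
    rw [one_le_div h2]
    exact TZ6.sn_mono' (fun z hz => hB z (hsub a hz)) h1
  -- the sum of the exponents
  have hsum := hZ lam p ρ φ (gd n) w hl1 hloc hgr hws (by
    intro x
    have hfin : {i : gd n | ‖x - w i‖ ≤ 1 / Real.sqrt L / Real.sqrt lam}.Finite := Set.toFinite _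
    rw [← hσ] at hfin ⊢
    set T : Finset (gd n) := hfin.toFinset with hT
    have hTm : ∀ i : gd n, i ∈ T ↔ ‖x - w i‖ ≤ σ := fun i => by
      rw [hT, Set.Finite.mem_toFinset]
      rfl
    have hcard : {i : gd n | ‖x - w i‖ ≤ σ}.ncard = T.card := by
      rw [Set.ncard_eq_toFinset_card _ hfin]
    rw [hcard]
    rcases T.eq_empty_or_nonempty with h0 | hne
    · rw [h0]
      simp
    · obtain ⟨a, ha, hamin⟩ := Finset.exists_min_image T (fun i => (i : ℕ × ℕ).1) hne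
      obtain ⟨b, hb, hbmin⟩ := Finset.exists_min_image T (fun i => (i : ℕ × ℕ).2) hne
      have h1 : T.card ≤ (Finset.Icc (a : ℕ × ℕ).1 ((a : ℕ × ℕ).1 + 3) ×ˢ
          Finset.Icc (b : ℕ × ℕ).2 ((b : ℕ × ℕ).2 + 3)).card := by
        apply Finset.card_le_card_of_injOn (Subtype.val : gd n → ℕ × ℕ)
        · intro i hi
          have hi' := (hTm i).1 hi
          have ha' := (hTm a).1 ha
          have hb' := (hTm b).1 hb
          have r1 := (Complex.abs_re_le_norm (x - w i)).trans hi'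
          have r2 := (Complex.abs_re_le_norm (x - w a)).trans ha'
          have r3 := (Complex.abs_im_le_norm (x - w i)).trans hi'
          have r4 := (Complex.abs_im_le_norm (x - w b)).trans hb'
          rw [Complex.sub_re, hwre] at r1 r2
          rw [Complex.sub_im, hwim] at r3 r4
          rw [Finset.mem_coe, Finset.mem_product, Finset.mem_Icc, Finset.mem_Icc]
          exact ⟨⟨hamin i hi, sq_idx hnpos hs hσn r1 r2⟩, ⟨hbmin i hi, sq_idx hnpos hs hσn r3 r4⟩⟩
        · intro i _ j _ h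
          exact Subtype.ext h
      have h2 : (Finset.Icc (a : ℕ × ℕ).1 ((a : ℕ × ℕ).1 + 3) ×ˢ
          Finset.Icc (b : ℕ × ℕ).2 ((b : ℕ × ℕ).2 + 3)).card = 16 := by
        rw [Finset.card_product, Nat.card_Icc, Nat.card_Icc]
        have e1 : (a : ℕ × ℕ).1 + 3 + 1 - (a : ℕ × ℕ).1 = 4 := by omega
        have e2 : (b : ℕ × ℕ).2 + 3 + 1 - (b : ℕ × ℕ).2 = 4 := by omega
        rw [e1, e2]
      rw [h2] at h1
      exact_mod_cast h1)
  rw [hσ16, ← hσ] at hsum
  -- the covering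
  have hcov : {z | |(z - p).re| ≤ s ∧ |(z - p).im| ≤ s ∧ φ z = 0} ⊆
      ⋃ a ∈ (Finset.univ : Finset (gd n)), {z | z ∈ closedBall (w a) σ ∧ φ z = 0} := by
    rintro z ⟨h1, h2, h3⟩
    obtain ⟨b, hb, hb'⟩ := TZ6.pos_ct hnpos hs h1 h2
    rw [Set.mem_iUnion₂]
    refine ⟨⟨b, hb⟩, Finset.mem_univ _, ?_, h3⟩
    rw [mem_closedBall, dist_eq_norm]
    exact hb'.trans hsn
  refine (measure_mono hcov).trans ((measure_biUnion_finset_le _ _).trans ?_)
  refine (Finset.sum_le_sum fun a _ => hloc1 a).trans ?_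
  rw [← ENNReal.ofReal_sum_of_nonneg (fun a _ => by
    have := hlog0 a
    positivity)]
  apply ENNReal.ofReal_le_ofReal
  rw [← Finset.mul_sum, Finset.sum_add_distrib, Finset.sum_const, Finset.card_univ,
    Fintype.card_coe, gd_card, nsmul_eq_mul, mul_one]
  push_cast
  calc C * σ * ((n : ℝ) ^ 2 + ∑ a : gd n, Real.log (sn φ (closedBall (w a) (16 * σ)) /
        sn φ (closedBall (w a) σ)))
      ≤ C * σ * ((n : ℝ) ^ 2 + Az * lam) := mul_le_mul_of_nonneg_left (by linarith) (by positivity)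
    _ = C * ((n : ℝ) ^ 2 * σ + Az * (σ * lam)) := by ring
    _ ≤ C * (9 * s ^ 2 * L * Real.sqrt lam + Az * Real.sqrt lam) := by
        apply mul_le_mul_of_nonneg_left _ hC0.le
        exact add_le_add hn3 (mul_le_mul_of_nonneg_left hlamσ hAz.le)
    _ = C * (9 * s ^ 2 * L + Az) * Real.sqrt lam := by ring

end

end Pool.Agent.D0H79.YN
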